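import Mathlib

/-!
# The cut and choose game of length `ω` and precipitous ideals: definitions

Cut splits the current set into two disjoint pieces, Choose selects one of them; `ω` rounds.
Choose loses at once when she selects a singleton, and wins a play of length `ω` exactly when the
intersection of her selections is nonempty.
-/

open Cardinal Set Function
open scoped Ordinal

namespace Pool.Agent.CutChoose

/-- The cardinal `ω₂` (the set of all ordinals below `ω₂`). -/
abbrev OmegaTwo : Type := (ω_ 2 : Ordinal.{0}).ToType

/-! ## The game -/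

section game

variable {K : Type}

/-- The list of the first `n` moves of Cut (each move is the pair of pieces), latest first. -/
def moves (c : ℕ → Set K × Set K) : ℕ → List (Set K × Set K)
  | 0 => []
  | n + 1 => c n :: moves c n

/-- The current set after `n` rounds, when Choose follows `σ` and Cut plays `c`.  A strategy `σ`
maps the list of all moves made by Cut so far (latest first) to the selected set. -/
def stage (σ : List (Set K × Set K) → Set K) (c : ℕ → Set K × Set K) : ℕ → Set K
  | 0 => Set.univ
  | n + 1 => σ (moves c (n + 1))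

/-- `c` is a legal sequence of moves of Cut against `σ`: the `n`-th move splits the current set
into two disjoint pieces. -/
def LegalCuts (σ : List (Set K × Set K) → Set K) (c : ℕ → Set K × Set K) : Prop :=
  ∀ n, (c n).1 ∪ (c n).2 = stage σ c n ∧ Disjoint (c n).1 (c n).2

/-- `σ` is a winning strategy for Choose in the cut and choose game of length `ω` on `K`: against
every legal sequence of cuts, `σ` always selects one of the two pieces, never selects a singleton,
and the intersection of all selections is nonempty. -/
def IsWinning (σ : List (Set K × Set K) → Set K) : Prop :=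
  ∀ c : ℕ → Set K × Set K, LegalCuts σ c →
    (∀ n, stage σ c (n + 1) = (c n).1 ∨ stage σ c (n + 1) = (c n).2) ∧
    (∀ n x, stage σ c (n + 1) ≠ {x}) ∧
    (⋂ n, stage σ c n).Nonempty

variable (K) in
/-- Choose has a winning strategy in the cut and choose game of length `ω` on `K`. -/
def ChooseWins : Prop := ∃ σ : List (Set K × Set K) → Set K, IsWinning σ

end game

/-! ## Ideals -/

section ideals

variable {K : Type}

/-- `W` is an antichain for `I`: a family of `I`-positive sets which are pairwise disjoint
modulo `I`. -/
def IsIAntichain (I : Set (Set K)) (W : Set (Set K)) : Prop :=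
  (∀ X ∈ W, X ∉ I) ∧ ∀ X ∈ W, ∀ Y ∈ W, X ≠ Y → X ∩ Y ∈ I

/-- `W` is an `I`-partition of `A`: a maximal family of `I`-positive subsets of `A` that are
pairwise disjoint modulo `I`. -/
structure IsIPartition {K : Type} (I : Set (Set K)) (A : Set K) (W : Set (Set K)) : Prop where
  sub : ∀ X ∈ W, X ⊆ A
  pos : ∀ X ∈ W, X ∉ I
  disj : ∀ X ∈ W, ∀ Y ∈ W, X ≠ Y → X ∩ Y ∈ I
  max : ∀ B, B ⊆ A → B ∉ I → ∃ X ∈ W, B ∩ X ∉ I

/-- The generic ultrapower by `I` is forced to be well-founded: there are no positive set `A` and
names `f 0, f 1, …` (each given by an `I`-partition `W n` of `A` and functions `f n X` for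
`X ∈ W n`) of elements of the generic ultrapower that `A` forces to form a descending
`∈`-sequence. -/
def ForcedWellFounded (I : Set (Set K)) : Prop :=
  ¬ ∃ (A : Set K) (W : ℕ → Set (Set K)) (f : ℕ → Set K → K → ZFSet.{0}), A ∉ I ∧
    (∀ n, IsIPartition I A (W n)) ∧
    ∀ n, ∀ X ∈ W n, ∀ Y ∈ W (n + 1), {x ∈ X ∩ Y | f (n + 1) Y x ∉ f n X x} ∈ I

/-- The Jech–Prikry criterion for precipitousness: whenever `W 0, W 1, …` are `I`-partitions of a
positive set `A`, each refining the previous one, there are `X 0 ⊇ X 1 ⊇ …` with `X n ∈ W n` and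
nonempty intersection. -/
def JechPrikry (I : Set (Set K)) : Prop :=
  ∀ A : Set K, A ∉ I → ∀ W : ℕ → Set (Set K), (∀ n, IsIPartition I A (W n)) →
    (∀ n, ∀ Y ∈ W (n + 1), ∃ X ∈ W n, Y ⊆ X) →
    ∃ X : ℕ → Set K, (∀ n, X n ∈ W n) ∧ (∀ n, X (n + 1) ⊆ X n) ∧ (⋂ n, X n).Nonempty

/-- `I` is precipitous: the generic ultrapower is forced to be well-founded, and (equivalently)
the Jech–Prikry criterion holds. -/
structure IsPrecipitous (I : Set (Set K)) : Prop where
  wellFounded : ForcedWellFounded I
  jechPrikry : JechPrikry I

/-- `I` is a proper `ω₂`-complete ideal on `ω₂` which contains all bounded sets. -/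
structure IsOmegaTwoIdeal (I : Set (Set OmegaTwo)) : Prop where
  down : ∀ A B, A ⊆ B → B ∈ I → A ∈ I
  complete : ∀ 𝒜 : Set (Set OmegaTwo), #𝒜 < ℵ_ 2 → 𝒜 ⊆ I → ⋃₀ 𝒜 ∈ I
  bounded : ∀ A, BddAbove A → A ∈ I
  proper : Set.univ ∉ I

end ideals

end Pool.Agent.CutChoose
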