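import Mathlib

/-!
# Systems of distinct representatives and Bernstein-type injections

`exists_sdr`: a family of `#ι` sets, each of size at least `#ι`, has an injective choice function.
`exists_bernstein`: a type of size at most the continuum injects into Cantor space in such a way
that the range contains no Lipschitz-coded perfect set.
-/

open Cardinal Set Function

namespace Pool.Agent.CutChoose

universe u

/-- Injective choice for large families. -/
theorem exists_sdr {ι Y : Type u} (R : ι → Set Y) (h : ∀ i, #ι ≤ #(R i)) :
    ∃ g : ι → Y, Injective g ∧ ∀ i, g i ∈ R i := by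
  classical
  obtain ⟨_, wo, hr⟩ := Cardinal.exists_ord_eq_type_lt ι
  have hlt : ∀ i : ι, #(Iio i) < #ι := fun i => Cardinal.mk_Iio_lt i hr
  have hex : ∀ (i : ι) (g : ∀ j, j < i → Y), ∃ y ∈ R i, ∀ (j : ι) (hj : j < i), g j hj ≠ y := by
    intro i g
    by_contra hcon
    push Not at hcon
    have hsub : R i ⊆ range (fun x : Iio i => g x.1 x.2) := by
      intro y hy
      obtain ⟨j, hj, hjy⟩ := hcon y hy
      exact ⟨⟨j, hj⟩, hjy⟩
    have h1 : #(R i) ≤ #(Iio i) :=
      (Cardinal.mk_le_mk_of_subset hsub).trans Cardinal.mk_range_le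
    exact absurd (h1.trans_lt (hlt i)) (not_lt.mpr (h i))
  choose c hcR hcne using hex
  let g : ι → Y := wellFounded_lt.fix (fun i rec => c i rec)
  have hg : ∀ i, g i = c i (fun j _ => g j) := fun i => wellFounded_lt.fix_eq _ i
  refine ⟨g, ?_, ?_⟩
  · have key : ∀ i j : ι, j < i → g j ≠ g i := by
      intro i j hji
      have := hcne i (fun j _ => g j) j hji
      rw [hg i]
      exact this
    intro i j hij
    rcases lt_trichotomy i j with h1 | h1 | h1
    · exact absurd hij (key j i h1)
    · exact h1
    · exact absurd hij.symm (key i j h1)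
  · intro i
    rw [hg i]
    exact hcR i _

/-- The restriction of an infinite binary sequence to its first `n` values
(most recent value first). -/
def pre (b : ℕ → Bool) : ℕ → List Bool
  | 0 => []
  | n + 1 => b n :: pre b n

@[simp] lemma pre_zero (b : ℕ → Bool) : pre b 0 = [] := rfl
@[simp] lemma pre_succ (b : ℕ → Bool) (n : ℕ) : pre b (n + 1) = b n :: pre b n := rfl
@[simp] lemma length_pre (b : ℕ → Bool) (n : ℕ) : (pre b n).length = n := by
  induction n with
  | zero => rfl
  | succ n ih => simp [ih]

lemma pre_congr {b b' : ℕ → Bool} {n : ℕ} (h : ∀ k < n, b k = b' k) : pre b n = pre b' n := by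
  induction n with
  | zero => rfl
  | succ n ih =>
    simp only [pre_succ]
    rw [h n (Nat.lt_succ_self n), ih (fun k hk => h k (Nat.lt_succ_of_lt hk))]

/-- The Lipschitz map of Cantor space with code `w`. -/
def lip (w : List Bool → Bool) (b : ℕ → Bool) : ℕ → Bool := fun k => w (pre b (k + 1))

/-- A type of size at most the continuum embeds in Cantor space with a range that contains the
range of no injective coded map. -/
theorem exists_bernstein {I : Type} (hI : #I ≤ 𝔠) :
    ∃ a : I → (ℕ → Bool), Injective a ∧
      ∀ w : List Bool → Bool, Injective (lip w) → ∃ b, lip w b ∉ range a := by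
  classical
  have hC : #(List Bool → Bool) = 𝔠 := by
    have : #(List Bool → Bool) = 2 ^ ℵ₀ := by
      rw [← Cardinal.power_def]
      simp
    rw [this, Cardinal.two_power_aleph0]
  have hN : #(ℕ → Bool) = 𝔠 := by
    rw [← Cardinal.power_def]; simp
  have hCB : #((List Bool → Bool) × Bool) = 𝔠 := by
    rw [Cardinal.mk_prod]
    simp only [Cardinal.lift_id, hC, Cardinal.mk_bool]
    simp
  let R : (List Bool → Bool) × Bool → Set (ℕ → Bool) := fun w =>
    if Injective (lip w.1) then range (lip w.1) else Set.univ
  have hR : ∀ w, #((List Bool → Bool) × Bool) ≤ #(R w) := by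
    intro w
    rw [hCB]
    by_cases hw : Injective (lip w.1)
    · have : R w = range (lip w.1) := if_pos hw
      rw [this, Cardinal.mk_range_eq _ hw, hN]
    · have : R w = Set.univ := if_neg hw
      rw [this, Cardinal.mk_univ, hN]
  obtain ⟨g, hg, hgR⟩ := exists_sdr R hR
  have hIC : #I ≤ #(List Bool → Bool) := by rw [hC]; exact hI
  obtain ⟨e⟩ : Nonempty (I ↪ (List Bool → Bool)) := by
    rwa [← Cardinal.le_def]
  refine ⟨fun i => g (e i, true), ?_, ?_⟩
  · intro i j hij
    have := hg hij
    exact e.injective (Prod.mk.inj this).1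
  · intro w hw
    have h1 := hgR (w, false)
    have h2 : R (w, false) = range (lip w) := if_pos hw
    rw [h2] at h1
    obtain ⟨b, hb⟩ := h1
    refine ⟨b, ?_⟩
    rintro ⟨i, hi⟩
    have : g (e i, true) = g (w, false) := by rw [← hb]; exact hi
    have := hg this
    simp at this

end Pool.Agent.CutChoose
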