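import Mathlib
import Pool.Agent.CutChoose.Sdr

/-!
# Good systems

A good system on `X` is a preorder of positions, each carrying a current set, such that
every subset of `X` can be decided by extending a position, increasing sequences of positions have
nonempty intersection of their current sets, and no current set is a singleton.  A winning strategy
for Choose in the cut-and-choose game of length `ω` gives a good system.
-/

open Cardinal Set Function

namespace Pool.Agent.CutChoose

structure GoodSystem (X : Type) where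
  /-- positions -/
  P : Type
  /-- extension of positions -/
  le : P → P → Prop
  le_refl : ∀ p, le p p
  le_trans : ∀ p q r, le p q → le q r → le p r
  /-- the current set of a position -/
  cur : P → Set X
  mono : ∀ p q, le p q → cur q ⊆ cur p
  decide : ∀ p (A : Set X), ∃ q, le p q ∧ (cur q ⊆ A ∨ Disjoint (cur q) A)
  inter : ∀ f : ℕ → P, (∀ n, le (f n) (f (n + 1))) → (⋂ n, cur (f n)).Nonempty
  nosingle : ∀ p x, cur p ≠ {x}

namespace GoodSystem

variable {X : Type} (S : GoodSystem X)

lemma nonempty_cur (p : S.P) : (S.cur p).Nonempty := by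
  obtain ⟨x, hx⟩ := S.inter (fun _ => p) (fun _ => S.le_refl p)
  exact ⟨x, mem_iInter.mp hx 0⟩

/-- `S.Hopeless p A`: no extension of `p` has its current set inside `A`. -/
def Hopeless (p : S.P) (A : Set X) : Prop := ∀ q, S.le p q → ¬ S.cur q ⊆ A

lemma Hopeless.mono_set {p : S.P} {A B : Set X} (h : S.Hopeless p B) (hAB : A ⊆ B) :
    S.Hopeless p A := fun q hq hA => h q hq (hA.trans hAB)

lemma Hopeless.mono_pos {p q : S.P} {A : Set X} (h : S.Hopeless p A) (hpq : S.le p q) :
    S.Hopeless q A := fun r hr hA => h r (S.le_trans _ _ _ hpq hr) hA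

lemma not_hopeless_cur (p : S.P) : ¬ S.Hopeless p (S.cur p) :=
  fun h => h p (S.le_refl p) Subset.rfl

/-- a hopeless set can be avoided -/
lemma Hopeless.avoid {p : S.P} {A : Set X} (h : S.Hopeless p A) :
    ∃ q, S.le p q ∧ Disjoint (S.cur q) A := by
  obtain ⟨q, hq, h1 | h1⟩ := S.decide p A
  · exact absurd h1 (h q hq)
  · exact ⟨q, hq, h1⟩

lemma chain_le {f : ℕ → S.P} (hf : ∀ n, S.le (f n) (f (n + 1))) {m n : ℕ} (h : m ≤ n) :
    S.le (f m) (f n) := by
  induction h with
  | refl => exact S.le_refl _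
  | step _ ih => exact S.le_trans _ _ _ ih (hf _)

/-- **Key lemma**: a function into a set of size at most the continuum is constant on the current
set of some extension. -/
theorem exists_const (p : S.P) {I : Type} (hI : #I ≤ 𝔠) (F : X → I) :
    ∃ q, S.le p q ∧ ∃ i, ∀ x ∈ S.cur q, F x = i := by
  classical
  by_contra hcon
  push Not at hcon
  have avoid : ∀ q, S.le p q → ∀ i, ∃ r, S.le q r ∧ ∀ x ∈ S.cur r, F x ≠ i := by
    intro q hq i
    obtain ⟨r, hr, h1 | h1⟩ := S.decide q (F ⁻¹' {i})
    · obtain ⟨x, hx, hne⟩ := hcon r (S.le_trans _ _ _ hq hr) i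
      exact absurd (h1 hx) hne
    · exact ⟨r, hr, fun x hx hF => (Set.disjoint_left.mp h1 hx) hF⟩
  obtain ⟨a, ha, hbern⟩ := exists_bernstein hI
  -- deciding a digit
  have dig : ∀ (q : S.P) (N : ℕ), ∃ r, S.le q r ∧ ∃ v : Bool, ∀ x ∈ S.cur r, a (F x) N = v := by
    intro q N
    obtain ⟨r, hr, h1 | h1⟩ := S.decide q {x | a (F x) N = true}
    · exact ⟨r, hr, true, fun x hx => h1 hx⟩
    · refine ⟨r, hr, false, fun x hx => ?_⟩
      have := Set.disjoint_left.mp h1 hx
      simpa using this
  -- splitting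
  have split : ∀ q, S.le p q → ∃ N : ℕ, ∀ v : Bool, ∃ r, S.le q r ∧ ∀ x ∈ S.cur r,
      a (F x) N = v := by
    intro q hq
    by_contra hns
    push Not at hns
    -- `y N` is the only possible digit
    have hy : ∀ N : ℕ, ∃ y : Bool, ∀ r, S.le q r → ∀ v, (∀ x ∈ S.cur r, a (F x) N = v) →
        v = y := by
      intro N
      obtain ⟨v, hv⟩ := hns N
      refine ⟨!v, fun r hr v' hv' => ?_⟩
      by_contra hne
      have hvv : v' = v := by
        cases v <;> cases v' <;> simp_all
      subst hvv
      obtain ⟨x, hx, hxne⟩ := hv r hr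
      exact hxne (hv' x hx)
    choose y hy using hy
    obtain ⟨r₀, hr₀, hr₀'⟩ : ∃ r, S.le q r ∧ ∀ x ∈ S.cur r, a (F x) ≠ y := by
      by_cases hmem : ∃ i, a i = y
      · obtain ⟨i, hi⟩ := hmem
        obtain ⟨r, hr, hr'⟩ := avoid q hq i
        exact ⟨r, hr, fun x hx h => hr' x hx (ha (h.trans hi.symm))⟩
      · exact ⟨q, S.le_refl q, fun x _ h => hmem ⟨_, h⟩⟩
    choose g hg v hv using dig
    let f : ℕ → S.P := fun n => Nat.rec r₀ (fun n r => g r n) n
    have hf : ∀ n, S.le (f n) (f (n + 1)) := fun n => hg (f n) n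
    obtain ⟨x, hx⟩ := S.inter f hf
    have hx' : ∀ n, x ∈ S.cur (f n) := fun n => mem_iInter.mp hx n
    apply hr₀' x (hx' 0)
    funext N
    have h1 : ∀ z ∈ S.cur (f (N + 1)), a (F z) N = v (f N) N := hv (f N) N
    have h0 : S.le (f 0) (f (N + 1)) := S.chain_le (m := 0) (n := N + 1) hf (Nat.zero_le _)
    have h2 : S.le q (f (N + 1)) := S.le_trans _ _ _ hr₀ h0
    rw [h1 x (hx' (N + 1))]
    exact hy N _ h2 _ h1
  -- one step of the tree construction: split, then decide the next digit
  have step : ∀ (q : {q // S.le p q}) (n : ℕ), ∃ N : ℕ, ∀ v : Bool, ∃ r : {q // S.le p q},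
      S.le q.1 r.1 ∧ (∀ x ∈ S.cur r.1, a (F x) N = v) ∧
      ∃ d : Bool, ∀ x ∈ S.cur r.1, a (F x) n = d := by
    intro q n
    obtain ⟨N, hN⟩ := split q.1 q.2
    refine ⟨N, fun v => ?_⟩
    obtain ⟨r, hr, hrv⟩ := hN v
    obtain ⟨r', hr', d, hd⟩ := dig r n
    exact ⟨⟨r', S.le_trans _ _ _ q.2 (S.le_trans _ _ _ hr hr')⟩, S.le_trans _ _ _ hr hr',
      fun x hx => hrv x (S.mono _ _ hr' hx), d, hd⟩
  choose N r hle hsp d hd using step
  let T : List Bool → {q // S.le p q} := fun s =>
    List.rec ⟨p, S.le_refl p⟩ (fun b s q => r q s.length b) s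
  have hT : ∀ b s, T (b :: s) = r (T s) s.length b := fun b s => rfl
  let w : List Bool → Bool := fun s => match s with
    | [] => false
    | b :: s => d (T s) s.length b
  -- the limit points
  have hlim : ∀ b : ℕ → Bool, ∃ x, ∀ n, x ∈ S.cur (T (pre b n)).1 := by
    intro b
    obtain ⟨x, hx⟩ := S.inter (fun n => (T (pre b n)).1) (by
      intro n
      simp only [pre_succ, hT, length_pre]
      exact hle _ _ _)
    exact ⟨x, fun n => mem_iInter.mp hx n⟩
  choose z hz using hlim
  have hlip : ∀ b, lip w b = a (F (z b)) := by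
    intro b
    funext k
    have h1 : z b ∈ S.cur (T (b k :: pre b k)).1 := hz b (k + 1)
    rw [hT] at h1
    have h2 := hd _ _ _ _ h1
    simp only [length_pre] at h2
    simp only [lip, pre_succ, w, length_pre]
    exact h2.symm
  have hinj : Injective (lip w) := by
    intro b b' hbb
    by_contra hne
    have hex : ∃ k, b k ≠ b' k := by
      by_contra h
      push Not at h
      exact hne (funext h)
    let k := Nat.find hex
    have hk : b k ≠ b' k := Nat.find_spec hex
    have hlt : ∀ j < k, b j = b' j := fun j hj => by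
      have := Nat.find_min hex hj
      push Not at this
      exact this
    have hpre : pre b k = pre b' k := pre_congr hlt
    have h1 : z b ∈ S.cur (T (b k :: pre b k)).1 := hz b (k + 1)
    have h2 : z b' ∈ S.cur (T (b' k :: pre b' k)).1 := hz b' (k + 1)
    rw [hT] at h1 h2
    have e1 := hsp _ _ _ _ h1
    have e2 := hsp _ _ _ _ h2
    rw [← hpre] at e2
    rw [hlip, hlip] at hbb
    rw [hbb, e2] at e1
    exact hk e1.symm
  obtain ⟨b, hb⟩ := hbern w hinj
  exact hb ⟨F (z b), (hlip b).symm⟩

/-- hopeless sets form an ideal complete under unions of size at most the continuum -/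
theorem hopeless_iUnion (p : S.P) {I : Type} (hI : #I ≤ 𝔠) (A : I → Set X)
    (h : ∀ i, S.Hopeless p (A i)) : S.Hopeless p (⋃ i, A i) := by
  classical
  intro q hq hsub
  obtain ⟨x₀, hx₀⟩ := S.nonempty_cur q
  obtain ⟨i₀, -⟩ := mem_iUnion.mp (hsub hx₀)
  let F : X → I := fun x => if hx : ∃ i, x ∈ A i then hx.choose else i₀
  obtain ⟨r, hr, i, hi⟩ := S.exists_const q hI F
  apply h i r (S.le_trans _ _ _ hq hr)
  intro x hx
  have hex : ∃ i, x ∈ A i := mem_iUnion.mp (hsub (S.mono _ _ hr hx))
  have : F x = hex.choose := dif_pos hex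
  have h2 := hi x hx
  rw [this] at h2
  rw [← h2]
  exact hex.choose_spec

theorem hopeless_union (p : S.P) {A B : Set X} (hA : S.Hopeless p A) (hB : S.Hopeless p B) :
    S.Hopeless p (A ∪ B) := by
  intro q hq hsub
  obtain ⟨r, hr, hd⟩ := (hA.mono_pos S hq).avoid
  apply hB r (S.le_trans _ _ _ hq hr)
  intro x hx
  rcases hsub (S.mono _ _ hr hx) with h | h
  · exact absurd h (Set.disjoint_left.mp hd hx)
  · exact h

theorem hopeless_singleton (p : S.P) (x : X) : S.Hopeless p {x} := by
  intro q _ hsub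
  obtain ⟨y, hy⟩ := S.nonempty_cur q
  apply S.nosingle q x
  apply Subset.antisymm hsub
  intro z hz
  have h1 : y = x := hsub hy
  rw [mem_singleton_iff.mp hz, ← h1]
  exact hy

/-- sets of size at most the continuum are hopeless -/
theorem hopeless_small (p : S.P) {A : Set X} (hA : #A ≤ 𝔠) : S.Hopeless p A := by
  have : A = ⋃ x : A, {(x : X)} := by
    ext y; simp
  rw [this]
  exact S.hopeless_iUnion p hA _ (fun x => S.hopeless_singleton p x)

end GoodSystem

end Pool.Agent.CutChoose
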