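import Mathlib
import Pool.Agent.CutChoose.Good
import Pool.Agent.CutChoose.Defs

/-!
# Precipitous ideals: two criteria

* `SP` : the common combinatorial core (a strong form of precipitousness);
* a homogeneous good system gives an ideal with `SP`;
* an ideal complete under `ℵ₁`-unions all of whose antichains have size at most `ℵ₂` has `SP`.
-/

open Cardinal Set Function

namespace Pool.Agent.CutChoose

/-- The combinatorial core of precipitousness. -/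
def SP {K : Type} (I : Set (Set K)) : Prop :=
  ∀ A : Set K, A ∉ I → ∀ W : ℕ → Set (Set K), (∀ n, IsIPartition I A (W n)) →
    ∀ E : ℕ → Set K → Set K → Set K,
      (∀ n, ∀ X ∈ W n, ∀ Y ∈ W (n + 1), E n X Y ∈ I) →
      ∃ (x : K) (X : ℕ → Set K), ∀ n, X n ∈ W n ∧ x ∈ X n ∧ x ∉ E n (X n) (X (n + 1)) ∧
        X n ∩ X (n + 1) ∉ I

namespace GoodSystem

variable {K : Type} (S : GoodSystem K)

/-- the ideal of sets hopeless at `p` -/
def ideal (p : S.P) : Set (Set K) := {A | S.Hopeless p A}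

/-- `S` is homogeneous above `p`. -/
def Homogeneous (p : S.P) : Prop :=
  ∀ t, S.le p t → ∀ B ⊆ S.cur t, ¬ S.Hopeless p B → ¬ S.Hopeless t B

theorem SP_of_homogeneous (p : S.P) (hom : S.Homogeneous p) : SP (S.ideal p) := by
  classical
  intro A hA W hW E hE
  have hA' : ¬ S.Hopeless p A := hA
  have posStep : ∀ t, S.le p t → ∀ B ⊆ S.cur t, ¬ S.Hopeless p B →
      ∃ u, S.le t u ∧ S.cur u ⊆ B := by
    intro t ht B hB hpos
    have := hom t ht B hB hpos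
    unfold Hopeless at this
    push Not at this
    exact this
  have curpos : ∀ t, S.le p t → ¬ S.Hopeless p (S.cur t) := by
    intro t ht h
    exact h t ht Subset.rfl
  -- first step
  obtain ⟨t₀, ht₀, ht₀A⟩ : ∃ q, S.le p q ∧ S.cur q ⊆ A := by
    unfold Hopeless at hA'
    push Not at hA'
    exact hA'
  obtain ⟨X₀, hX₀, hX₀'⟩ := (hW 0).max _ ht₀A (curpos t₀ ht₀)
  obtain ⟨t₁, ht₁, ht₁'⟩ := posStep t₀ ht₀ _ inter_subset_left hX₀'
  -- general step
  have step : ∀ (n : ℕ) (t : S.P) (X : Set K), S.le p t → S.cur t ⊆ A → X ∈ W n →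
      S.cur t ⊆ X → ∃ (u : S.P) (Y : Set K), S.le t u ∧ Y ∈ W (n + 1) ∧ S.cur u ⊆ Y ∧
        Disjoint (S.cur u) (E n X Y) := by
    intro n t X ht htA hX htX
    obtain ⟨Y, hY, hY'⟩ := (hW (n + 1)).max _ htA (curpos t ht)
    have hpos : ¬ S.Hopeless p ((S.cur t ∩ Y) \ E n X Y) := by
      intro h
      apply hY'
      show S.Hopeless p _
      refine (S.hopeless_union p h (hE n X hX Y hY)).mono_set S ?_
      intro z hz
      by_cases hzE : z ∈ E n X Y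
      · exact Or.inr hzE
      · exact Or.inl ⟨hz, hzE⟩
    obtain ⟨u, hu, hu'⟩ := posStep t ht _ (sdiff_subset.trans inter_subset_left) hpos
    refine ⟨u, Y, hu, hY, fun z hz => (hu' hz).1.2, ?_⟩
    rw [Set.disjoint_left]
    exact fun z hz => (hu' hz).2
  let St : ℕ → Type := fun n =>
    {s : S.P × Set K // S.le p s.1 ∧ S.cur s.1 ⊆ A ∧ s.2 ∈ W n ∧ S.cur s.1 ⊆ s.2}
  have stepSt : ∀ (n : ℕ) (s : St n), ∃ s' : St (n + 1), S.le s.1.1 s'.1.1 ∧
      Disjoint (S.cur s'.1.1) (E n s.1.2 s'.1.2) := by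
    rintro n ⟨⟨t, X⟩, h1, h2, h3, h4⟩
    obtain ⟨u, Y, hu, hY, huY, hd⟩ := step n t X h1 h2 h3 h4
    exact ⟨⟨⟨u, Y⟩, S.le_trans _ _ _ h1 hu, (S.mono _ _ hu).trans h2, hY, huY⟩, hu, hd⟩
  choose g hg hgE using stepSt
  let s : (n : ℕ) → St n := fun n => Nat.rec
    ⟨⟨t₁, X₀⟩, S.le_trans _ _ _ ht₀ ht₁, (S.mono _ _ ht₁).trans ht₀A, hX₀,
      fun z hz => (ht₁' hz).2⟩ (fun n st => g n st) n
  have hs : ∀ n, s (n + 1) = g n (s n) := fun n => rfl
  obtain ⟨x, hx⟩ := S.inter (fun n => (s n).1.1) (fun n => by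
    show S.le (s n).1.1 (s (n + 1)).1.1
    rw [hs]; exact hg n (s n))
  have hx' : ∀ n, x ∈ S.cur (s n).1.1 := fun n => mem_iInter.mp hx n
  refine ⟨x, fun n => (s n).1.2, fun n => ⟨(s n).2.2.2.1, (s n).2.2.2.2 (hx' n), ?_, ?_⟩⟩
  · have := hgE n (s n)
    rw [← hs] at this
    exact Set.disjoint_left.mp this (hx' (n + 1))
  · intro h
    have h' : S.Hopeless p ((s n).1.2 ∩ (s (n + 1)).1.2) := h
    apply curpos (s (n + 1)).1.1 (s (n + 1)).2.1
    refine h'.mono_set S ?_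
    intro z hz
    refine ⟨(s n).2.2.2.2 ?_, (s (n + 1)).2.2.2.2 hz⟩
    have := hg n (s n)
    rw [← hs] at this
    exact S.mono _ _ this hz

end GoodSystem

/-- Completeness of an ideal under unions of size `ℵ₁`. -/
structure IsCompleteIdeal {K : Type} (I : Set (Set K)) : Prop where
  down : ∀ A B : Set K, A ⊆ B → B ∈ I → A ∈ I
  iUnion : ∀ (ι : Type), #ι ≤ ℵ_ 1 → ∀ A : ι → Set K, (∀ i, A i ∈ I) → (⋃ i, A i) ∈ I

theorem SP_of_saturated {K : Type} (I : Set (Set K)) (hI : IsCompleteIdeal I)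
    (hsat : ∀ W : Set (Set K), (∀ X ∈ W, X ∉ I) → (∀ X ∈ W, ∀ Y ∈ W, X ≠ Y → X ∩ Y ∈ I) →
      #W ≤ ℵ_ 2) : SP I := by
  classical
  intro A hA W hW E hE
  have hunion : ∀ B C : Set K, B ∈ I → C ∈ I → B ∪ C ∈ I := by
    intro B C hB hC
    have := hI.iUnion Bool (by
      rw [Cardinal.mk_bool]
      exact (Cardinal.natCast_lt_aleph0 (n := 2)).le.trans (Cardinal.aleph0_le_aleph 1))
      (fun b => cond b B C) (by intro b; cases b <;> simpa)
    have e : (⋃ b : Bool, cond b B C) = B ∪ C := by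
      ext z; simp [or_comm]
    rwa [e] at this
  have hcount : ∀ B : ℕ → Set K, (∀ n, B n ∈ I) → (⋃ n, B n) ∈ I := fun B hB =>
    hI.iUnion ℕ (by rw [Cardinal.mk_nat]; exact Cardinal.aleph0_le_aleph 1) B hB
  have hdiff : ∀ B C : Set K, B ∉ I → C ∈ I → B \ C ∉ I := by
    intro B C hB hC h
    apply hB
    refine hI.down _ _ ?_ (hunion _ _ h hC)
    intro z hz
    by_cases hzC : z ∈ C
    · exact Or.inr hzC
    · exact Or.inl ⟨hz, hzC⟩
  -- enumerate each partition with small initial segments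
  have enum : ∀ n, ∃ F : K → W n, (∀ X : W n, X.1 \ {x | x ∈ X.1 ∧ F x = X} ∈ I) ∧
      ∀ x, (∃ X ∈ W n, x ∈ X) → x ∈ (F x).1 := by
    intro n
    obtain ⟨r, wo, hr⟩ := Cardinal.exists_ord_eq (W n)
    have hne : Nonempty (W n) := by
      obtain ⟨X, hX, -⟩ := (hW n).max A Subset.rfl hA
      exact ⟨⟨X, hX⟩⟩
    have hsmall : ∀ X : W n, #{Y // r Y X} ≤ ℵ_ 1 := by
      intro X
      have h1 : #{Y // r Y X} < #(W n) := by
        have e := Ordinal.card_typein (r := r) X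
        have h := Cardinal.card_typein_lt X hr
        rw [e] at h
        exact h
      have h2 : #(W n) ≤ ℵ_ 2 := hsat (W n) (hW n).pos (hW n).disj
      have h3 : #{Y // r Y X} < ℵ_ 2 := h1.trans_le h2
      have h4 : (ℵ_ 2 : Cardinal) = Order.succ (ℵ_ 1) := by
        rw [Cardinal.succ_aleph]; congr 1
        norm_num
      rw [h4] at h3
      exact Order.lt_succ_iff.mp h3
    let F : K → W n := fun x =>
      if h : ∃ X : W n, x ∈ X.1 then wo.wf.min {X : W n | x ∈ X.1} h else hne.some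
    have hF1 : ∀ x, (∃ X : W n, x ∈ X.1) → x ∈ (F x).1 := by
      intro x h
      have : F x = wo.wf.min {X : W n | x ∈ X.1} h := dif_pos h
      rw [this]
      exact wo.wf.min_mem {X : W n | x ∈ X.1} h
    have hF2 : ∀ x (X : W n), x ∈ X.1 → ¬ r X (F x) := by
      intro x X hx
      have h : ∃ X : W n, x ∈ X.1 := ⟨X, hx⟩
      have : F x = wo.wf.min {X : W n | x ∈ X.1} h := dif_pos h
      rw [this]
      exact wo.wf.not_lt_min {X : W n | x ∈ X.1} hx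
    refine ⟨F, fun X => ?_, fun x ⟨X, hX, hx⟩ => hF1 x ⟨⟨X, hX⟩, hx⟩⟩
    have hU := hI.iUnion {Y // r Y X} (hsmall X) (fun Y => Y.1.1 ∩ X.1) (by
      intro Y
      apply (hW n).disj _ Y.1.2 _ X.2
      intro h
      have : Y.1 = X := Subtype.ext h
      have h2 := Y.2
      rw [this] at h2
      exact irrefl_of r X h2)
    refine hI.down _ _ ?_ hU
    rintro z ⟨hz, hz'⟩
    have hne' : F z ≠ X := fun h => hz' ⟨hz, h⟩
    have hlt : r (F z) X := by
      rcases trichotomous_of r (F z) X with h | h | h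
      · exact h
      · exact absurd h hne'
      · exact absurd h (hF2 z X hz)
    exact mem_iUnion.mpr ⟨⟨F z, hlt⟩, hF1 z ⟨X, hz⟩, hz⟩
  choose F hF1 hF2 using enum
  -- the points not covered
  have hD : ∀ n, {x ∈ A | ¬ ∃ X ∈ W n, x ∈ X} ∈ I := by
    intro n
    by_contra h
    obtain ⟨X, hX, hX'⟩ := (hW n).max _ (fun z hz => hz.1) h
    apply hX'
    have : {x ∈ A | ¬ ∃ X ∈ W n, x ∈ X} ∩ X = ∅ := by
      ext z
      constructor
      · rintro ⟨⟨_, h2⟩, h3⟩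
        exact h2 ⟨X, hX, h3⟩
      · intro h; exact h.elim
    rw [this]
    exact hI.down ∅ _ (empty_subset _) (hI.iUnion Empty (by simp) (fun e => e.elim)
      (fun e => e.elim))
  -- the bad points
  have hB : ∀ n, {x ∈ A | x ∈ E n (F n x).1 (F (n + 1) x).1 ∨
      (F n x).1 ∩ (F (n + 1) x).1 ∈ I} ∈ I := by
    intro n
    by_contra h
    set B := {x ∈ A | x ∈ E n (F n x).1 (F (n + 1) x).1 ∨
      (F n x).1 ∩ (F (n + 1) x).1 ∈ I} with hBdef
    obtain ⟨X, hX, hX'⟩ := (hW n).max B (fun z hz => hz.1) h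
    have h1 := hdiff _ _ hX' (hF1 n ⟨X, hX⟩)
    obtain ⟨Y, hY, hY'⟩ := (hW (n + 1)).max _ (fun z hz => hz.1.1.1) h1
    have h2 := hdiff _ _ hY' (hF1 (n + 1) ⟨Y, hY⟩)
    have key : ∀ z ∈ (((B ∩ X) \ (X \ {x | x ∈ X ∧ F n x = ⟨X, hX⟩})) ∩ Y) \
        (Y \ {x | x ∈ Y ∧ F (n + 1) x = ⟨Y, hY⟩}),
        z ∈ B ∧ z ∈ X ∧ z ∈ Y ∧ F n z = ⟨X, hX⟩ ∧ F (n + 1) z = ⟨Y, hY⟩ := by
      rintro z ⟨⟨⟨⟨hzB, hzX⟩, hz1⟩, hzY⟩, hz2⟩
      refine ⟨hzB, hzX, hzY, ?_, ?_⟩
      · by_contra hne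
        exact hz1 ⟨hzX, fun h => hne h.2⟩
      · by_contra hne
        exact hz2 ⟨hzY, fun h => hne h.2⟩
    have hXY : X ∩ Y ∉ I := by
      intro hXY
      apply h2
      refine hI.down _ (X ∩ Y) ?_ hXY
      exact fun z hz => ⟨(key z hz).2.1, (key z hz).2.2.1⟩
    apply h2
    refine hI.down _ _ ?_ (hE n X hX Y hY)
    intro z hz
    obtain ⟨hzB, hzX, hzY, e1, e2⟩ := key z hz
    have := hzB.2
    rw [e1, e2] at this
    rcases this with h | h
    · exact h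
    · exact absurd h hXY
  have hall : (⋃ n, {x ∈ A | ¬ ∃ X ∈ W n, x ∈ X}) ∪ (⋃ n, {x ∈ A | x ∈ E n (F n x).1
      (F (n + 1) x).1 ∨ (F n x).1 ∩ (F (n + 1) x).1 ∈ I}) ∈ I :=
    hunion _ _ (hcount _ hD) (hcount _ hB)
  obtain ⟨x, hxA, hx⟩ : ∃ x ∈ A, x ∉ (⋃ n, {x ∈ A | ¬ ∃ X ∈ W n, x ∈ X}) ∪
      (⋃ n, {x ∈ A | x ∈ E n (F n x).1 (F (n + 1) x).1 ∨
        (F n x).1 ∩ (F (n + 1) x).1 ∈ I}) := by
    by_contra hcon
    apply hA
    refine hI.down _ _ ?_ hall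
    intro z hz
    by_contra hz'
    exact hcon ⟨z, hz, hz'⟩
  rw [mem_union, not_or] at hx
  obtain ⟨hx1, hx2⟩ := hx
  simp only [mem_iUnion, mem_ofPred_eq, not_exists, not_and, not_or] at hx1 hx2
  refine ⟨x, fun n => (F n x).1, fun n => ⟨(F n x).2, ?_, (hx2 n hxA).1, (hx2 n hxA).2⟩⟩
  apply hF2
  have := hx1 n hxA
  push Not at this
  exact this

end Pool.Agent.CutChoose
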