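import Mathlib
import Pool.Agent.CutChoose.Precip

/-!
# Products, transport and the coded tree
-/

open Cardinal Set Function

namespace Pool.Agent.CutChoose

namespace GoodSystem

/-- The iterated product of a good system with itself. -/
def prod {K : Type} (S : GoodSystem K) : GoodSystem (K × K) where
  P := S.P × (K → S.P)
  le p q := S.le p.1 q.1 ∧ ∀ a ∈ S.cur q.1, S.le (p.2 a) (q.2 a)
  le_refl p := ⟨S.le_refl _, fun _ _ => S.le_refl _⟩
  le_trans p q r hpq hqr := ⟨S.le_trans _ _ _ hpq.1 hqr.1, fun a ha =>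
    S.le_trans _ _ _ (hpq.2 a (S.mono _ _ hqr.1 ha)) (hqr.2 a ha)⟩
  cur p := {x | x.1 ∈ S.cur p.1 ∧ x.2 ∈ S.cur (p.2 x.1)}
  mono p q h x hx := ⟨S.mono _ _ h.1 hx.1, S.mono _ _ (h.2 x.1 hx.1) hx.2⟩
  decide := by
    rintro ⟨t, h⟩ A
    have h1 : ∀ a, ∃ q, S.le (h a) q ∧
        (S.cur q ⊆ {b | (a, b) ∈ A} ∨ Disjoint (S.cur q) {b | (a, b) ∈ A}) :=
      fun a => S.decide (h a) _
    choose g hg hg' using h1
    obtain ⟨u, hu, hu'⟩ := S.decide t {a | S.cur (g a) ⊆ {b | (a, b) ∈ A}}
    refine ⟨(u, g), ⟨hu, fun a _ => hg a⟩, ?_⟩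
    rcases hu' with hu' | hu'
    · left
      rintro ⟨a, b⟩ ⟨ha, hb⟩
      exact hu' ha hb
    · right
      rw [Set.disjoint_left]
      rintro ⟨a, b⟩ ⟨ha, hb⟩ hA
      have h2 := Set.disjoint_left.mp hu' ha
      rcases hg' a with h3 | h3
      · exact h2 h3
      · exact Set.disjoint_left.mp h3 hb hA
  inter := by
    intro f hf
    obtain ⟨a, ha⟩ := S.inter (fun n => (f n).1) (fun n => (hf n).1)
    have ha' : ∀ n, a ∈ S.cur (f n).1 := fun n => mem_iInter.mp ha n
    obtain ⟨b, hb⟩ := S.inter (fun n => (f n).2 a) (fun n => (hf n).2 a (ha' (n + 1)))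
    exact ⟨(a, b), mem_iInter.mpr fun n => ⟨ha' n, mem_iInter.mp hb n⟩⟩
  nosingle := by
    rintro ⟨t, h⟩ ⟨a, b⟩ heq
    apply S.nosingle t a
    apply Subset.antisymm
    · intro a' ha'
      obtain ⟨b', hb'⟩ := S.nonempty_cur (h a')
      have : (a', b') ∈ ({(a, b)} : Set (K × K)) := by
        rw [← heq]; exact ⟨ha', hb'⟩
      exact (Prod.mk.inj this).1
    · have : (a, b) ∈ {x : K × K | x.1 ∈ S.cur t ∧ x.2 ∈ S.cur (h x.1)} := by
        rw [heq]; rfl
      intro a' ha'
      rw [mem_singleton_iff.mp ha']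
      exact this.1

/-- Transport along a bijection. -/
def map {K L : Type} (S : GoodSystem K) (e : K ≃ L) : GoodSystem L where
  P := S.P
  le := S.le
  le_refl := S.le_refl
  le_trans := S.le_trans
  cur p := e '' S.cur p
  mono p q h := image_mono (S.mono p q h)
  decide := by
    intro p A
    obtain ⟨q, hq, h | h⟩ := S.decide p (e ⁻¹' A)
    · exact ⟨q, hq, Or.inl (image_subset_iff.mpr h)⟩
    · refine ⟨q, hq, Or.inr ?_⟩
      rw [Set.disjoint_left]
      rintro _ ⟨x, hx, rfl⟩ hA
      exact Set.disjoint_left.mp h hx hA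
  inter := by
    intro f hf
    obtain ⟨x, hx⟩ := S.inter f hf
    exact ⟨e x, mem_iInter.mpr fun n => ⟨x, mem_iInter.mp hx n, rfl⟩⟩
  nosingle := by
    intro p y heq
    apply S.nosingle p (e.symm y)
    have := congrArg (fun A => e.symm '' A) heq
    simpa [image_image] using this

/-- Two positions are weakly incompatible in `S`: no extension of either of them has its current
set inside both current sets. -/
def Inc {K : Type} (S : GoodSystem K) (p q : S.P) : Prop :=
  S.Hopeless p (S.cur p ∩ S.cur q) ∧ S.Hopeless q (S.cur p ∩ S.cur q)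

/-- A good system has *large splitting* if every position has a family of weakly incompatible
extensions indexed by all subsets of the underlying set. -/
def LargeSplitting {K : Type} (S : GoodSystem K) : Prop :=
  ∀ p : S.P, ∃ g : Set K → S.P, (∀ A, S.le p (g A)) ∧ ∀ A B, A ≠ B → S.Inc (g A) (g B)

theorem LargeSplitting.map {K L : Type} {S : GoodSystem K} (h : S.LargeSplitting) (e : K ≃ L) :
    (S.map e).LargeSplitting := by
  intro p
  obtain ⟨g, hg, hg'⟩ := h p
  refine ⟨fun A => g (e ⁻¹' A), fun A => hg _, fun A B hAB => ?_⟩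
  have hne : e ⁻¹' A ≠ e ⁻¹' B := fun h => hAB (e.surjective.preimage_injective h)
  have h1 := hg' _ _ hne
  have himg : ∀ q r s : S.P, e '' S.cur q ⊆ e '' S.cur r ∩ e '' S.cur s →
      S.cur q ⊆ S.cur r ∩ S.cur s := by
    intro q r s h
    rw [← image_inter e.injective] at h
    exact (image_subset_image_iff e.injective).mp h
  exact ⟨fun q hq hsub => h1.1 q hq (himg _ _ _ hsub), fun q hq hsub =>
    h1.2 q hq (himg _ _ _ hsub)⟩

section coded

variable {K : Type} (S : GoodSystem K) (c : S.P → Set K → S.P) (p : S.P)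

/-- the node of the coded tree -/
def node : List (Set K) → S.P
  | [] => p
  | A :: l => c (node l) A

variable {S c p}

lemma node_le (hc : ∀ q A, S.le q (c q A)) {l l' : List (Set K)} (h : l <:+ l') :
    S.le (node S c p l) (node S c p l') := by
  obtain ⟨m, rfl⟩ := h
  induction m with
  | nil => exact S.le_refl _
  | cons A m ih => exact S.le_trans _ _ _ ih (hc _ A)

/-- The coded tree is a good system. -/
def coded (S : GoodSystem K) (c : S.P → Set K → S.P) (p : S.P) (hc : ∀ q A, S.le q (c q A))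
    (hdec : ∀ q A, S.cur (c q A) ⊆ A ∨ Disjoint (S.cur (c q A)) A) : GoodSystem K where
  P := List (Set K)
  le l l' := l <:+ l'
  le_refl l := List.suffix_refl l
  le_trans _ _ _ h h' := h.trans h'
  cur l := S.cur (node S c p l)
  mono _ _ h := S.mono _ _ (node_le hc h)
  decide l A := ⟨A :: l, List.suffix_cons A l, hdec _ A⟩
  inter f hf := S.inter (fun n => node S c p (f n)) (fun n => node_le hc (hf n))
  nosingle _ x := S.nosingle _ x

/-- Two lists are comparable or branch. -/
lemma comparable_or_branch {α : Type*} (l l' : List α) :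
    l <:+ l' ∨ l' <:+ l ∨ ∃ (m : List α) (A B : α), A ≠ B ∧ (A :: m) <:+ l ∧ (B :: m) <:+ l' := by
  induction l with
  | nil => exact Or.inl (List.nil_suffix)
  | cons A l ih =>
    rcases ih with h | h | ⟨m, A', B', hne, h1, h2⟩
    · -- l is a suffix of l'
      obtain ⟨t, rfl⟩ := h
      rcases List.eq_nil_or_concat t with rfl | ⟨t', B, rfl⟩
      · exact Or.inr (Or.inl (List.suffix_cons A l))
      · by_cases hAB : A = B
        · subst hAB
          left
          refine ⟨t', ?_⟩
          simp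
        · right; right
          refine ⟨l, A, B, hAB, List.suffix_refl _, ⟨t', by simp⟩⟩
    · exact Or.inr (Or.inl (h.trans (List.suffix_cons A l)))
    · exact Or.inr (Or.inr ⟨m, A', B', hne, h1.trans (List.suffix_cons A l), h2⟩)

end coded

/-- A good system with large splitting has a homogeneous coded tree. -/
theorem exists_homogeneous {K : Type} (S : GoodSystem K) (p : S.P) (h : S.LargeSplitting) :
    ∃ (T : GoodSystem K) (r : T.P), T.Homogeneous r ∧ T.cur r = S.cur p := by
  classical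
  -- the successor function
  have hex : ∀ q : S.P, ∃ c : Set K → S.P, (∀ A, S.le q (c A)) ∧
      (∀ A, S.cur (c A) ⊆ A ∨ Disjoint (S.cur (c A)) A) ∧
      ∀ A B, A ≠ B → ∀ u, S.le (c B) u → ¬ S.cur u ⊆ S.cur (c A) := by
    intro q
    obtain ⟨g, hg, hinc⟩ := h q
    have hd : ∀ A : Set K, ∃ r, S.le (g A) r ∧ (S.cur r ⊆ A ∨ Disjoint (S.cur r) A) :=
      fun A => S.decide (g A) A
    choose c hc hc' using hd
    refine ⟨c, fun A => S.le_trans _ _ _ (hg A) (hc A), hc', ?_⟩
    intro A B hAB u hu hsub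
    have h1 := (hinc A B hAB).2
    apply h1 u (S.le_trans _ _ _ (hc B) hu)
    intro x hx
    exact ⟨S.mono _ _ (hc A) (hsub hx), S.mono _ _ (hc B) (S.mono _ _ hu hx)⟩
  choose c hc hdec hinc using hex
  refine ⟨coded S c p hc hdec, ([] : List (Set K)), ?_, rfl⟩
  intro t _ B hB hpos
  unfold Hopeless at hpos ⊢
  push Not at hpos ⊢
  obtain ⟨l, -, hl⟩ := hpos
  change List (Set K) at t l
  have hl' : S.cur (node S c p l) ⊆ B := hl
  have hB' : B ⊆ S.cur (node S c p t) := hB
  rcases comparable_or_branch t l with h1 | h1 | ⟨m, A, A', hne, h1, h2⟩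
  · exact ⟨l, h1, hl⟩
  · refine ⟨t, List.suffix_refl t, ?_⟩
    show S.cur (node S c p t) ⊆ B
    exact (S.mono _ _ (node_le hc h1)).trans hl'
  · exfalso
    have e1 : S.le (c (node S c p m) A) (node S c p t) := node_le hc h1
    have e2 : S.le (c (node S c p m) A') (node S c p l) := node_le hc h2
    apply hinc (node S c p m) A A' hne _ e2
    exact (hl'.trans hB').trans (S.mono _ _ e1)

/-- If every ideal of a good system on `K` has an antichain of size at least the number of subsets
of each proper initial segment, then the product has large splitting. -/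
theorem prod_largeSplitting {K : Type} [LinearOrder K] (S : GoodSystem K)
    (hinit : ∀ a : K, #(Iic a) ≤ 𝔠)
    (hanti : ∀ p : S.P, ∀ a : K, ∃ W : Set (Set K), (∀ X ∈ W, ¬ S.Hopeless p X) ∧
      (∀ X ∈ W, ∀ Y ∈ W, X ≠ Y → S.Hopeless p (X ∩ Y)) ∧ #(Set (Iio a)) ≤ #W)
    (e : K × K ≃ K) : S.prod.LargeSplitting := by
  classical
  rintro ⟨t, h⟩
  -- choose codes
  have hcode : ∀ a : K, ∃ g : Set K → S.P, (∀ Z, S.le (h a) (g Z)) ∧
      ∀ Z Z' : Set K, Z ∩ Iio a ≠ Z' ∩ Iio a → ∀ u, S.le (h a) u →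
        ¬ S.cur u ⊆ S.cur (g Z) ∩ S.cur (g Z') := by
    intro a
    obtain ⟨W, hW1, hW2, hW3⟩ := hanti (h a) a
    obtain ⟨φ⟩ : Nonempty (Set (Iio a) ↪ W) := by rwa [← Cardinal.le_def]
    have h1 : ∀ X : W, ∃ q, S.le (h a) q ∧ S.cur q ⊆ X.1 := by
      intro X
      have := hW1 X.1 X.2
      unfold Hopeless at this
      push Not at this
      exact this
    choose q hq hq' using h1
    refine ⟨fun Z => q (φ (Subtype.val ⁻¹' Z)), fun Z => hq _, ?_⟩
    intro Z Z' hZ u hu hsub
    have hne : (Subtype.val ⁻¹' Z : Set (Iio a)) ≠ Subtype.val ⁻¹' Z' := by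
      intro heq
      apply hZ
      ext x
      constructor
      · rintro ⟨hx, hxa⟩
        have : (⟨x, hxa⟩ : Iio a) ∈ (Subtype.val ⁻¹' Z : Set (Iio a)) := hx
        rw [heq] at this
        exact ⟨this, hxa⟩
      · rintro ⟨hx, hxa⟩
        have : (⟨x, hxa⟩ : Iio a) ∈ (Subtype.val ⁻¹' Z' : Set (Iio a)) := hx
        rw [← heq] at this
        exact ⟨this, hxa⟩
    have hne' : (φ (Subtype.val ⁻¹' Z)).1 ≠ (φ (Subtype.val ⁻¹' Z')).1 := fun heq =>
      hne (φ.injective (Subtype.ext heq))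
    have h2 := hW2 _ (φ (Subtype.val ⁻¹' Z)).2 _ (φ (Subtype.val ⁻¹' Z')).2 hne'
    apply h2 u hu
    intro x hx
    exact ⟨hq' _ (hsub hx).1, hq' _ (hsub hx).2⟩
  choose g hg hginc using hcode
  let G : Set (K × K) → S.prod.P := fun A => (t, fun a => g a (e '' A))
  refine ⟨G, fun A => ⟨S.le_refl _, fun a _ => hg a _⟩, ?_⟩
  -- weak incompatibility
  have key : ∀ A B : Set (K × K), A ≠ B → ∀ u, S.prod.le (t, h) u →
      ¬ S.prod.cur u ⊆ S.prod.cur (G A) ∩ S.prod.cur (G B) := by
    intro A B hAB u hu hsub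
    have hne : e '' A ≠ e '' B := fun heq => hAB (e.injective.image_injective heq)
    obtain ⟨ξ, hξ⟩ : ∃ ξ, ¬ (ξ ∈ e '' A ↔ ξ ∈ e '' B) := by
      by_contra hcon
      push Not at hcon
      exact hne (Set.ext hcon)
    -- some point of the first coordinate above ξ
    obtain ⟨a, ha, haξ⟩ : ∃ a ∈ S.cur u.1, ξ < a := by
      by_contra hcon
      push Not at hcon
      have := S.hopeless_small u.1 (hinit ξ)
      exact this u.1 (S.le_refl _) (fun z hz => hcon z hz)
    have hne2 : e '' A ∩ Iio a ≠ e '' B ∩ Iio a := by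
      intro heq
      apply hξ
      constructor
      · intro hx
        have : ξ ∈ e '' A ∩ Iio a := ⟨hx, haξ⟩
        rw [heq] at this
        exact this.1
      · intro hx
        have : ξ ∈ e '' B ∩ Iio a := ⟨hx, haξ⟩
        rw [← heq] at this
        exact this.1
    apply hginc a _ _ hne2 (u.2 a) (hu.2 a ha)
    intro b hb
    have h3 : (a, b) ∈ S.prod.cur (G A) ∩ S.prod.cur (G B) := hsub ⟨ha, hb⟩
    exact ⟨h3.1.2, h3.2.2⟩
  intro A B hAB
  have hGle : ∀ A, S.prod.le (t, h) (G A) := fun A => ⟨S.le_refl _, fun a _ => hg a _⟩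
  exact ⟨fun u hu => key A B hAB u (S.prod.le_trans _ _ _ (hGle A) hu),
    fun u hu => key A B hAB u (S.prod.le_trans _ _ _ (hGle B) hu)⟩

end GoodSystem

end Pool.Agent.CutChoose
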