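import Mathlib
import Pool.Agent.CutChoose.Tree

/-!
# The cut and choose game `𝒰(κ, ≤ω)`

Cut splits the current set into two disjoint pieces, Choose selects one of them; `ω` rounds.
Choose loses at once when she selects a singleton, and wins a play of length `ω` exactly when the
intersection of her selections is nonempty.
-/

open Cardinal Set Function

namespace Pool.Agent.CutChoose

variable {K : Type}

/-- The current set of a list of moves. -/
def curSet (σ : List (Set K × Set K) → Set K) : List (Set K × Set K) → Set K
  | [] => Set.univ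
  | m :: l => σ (m :: l)

/-- Legal lists of moves. -/
def Legal (σ : List (Set K × Set K) → Set K) : List (Set K × Set K) → Prop
  | [] => True
  | m :: l => Legal σ l ∧ m.1 ∪ m.2 = curSet σ l ∧ Disjoint m.1 m.2

lemma Legal.suffix {σ : List (Set K × Set K) → Set K} {l l' : List (Set K × Set K)}
    (h : Legal σ l') (hs : l <:+ l') : Legal σ l := by
  obtain ⟨t, rfl⟩ := hs
  induction t with
  | nil => exact h
  | cons a t ih => exact ih h.1

lemma stage_eq (σ : List (Set K × Set K) → Set K) (c : ℕ → Set K × Set K) (n : ℕ) :
    stage σ c n = curSet σ (moves c n) := by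
  cases n <;> rfl

/-- Every increasing sequence of legal lists is contained in an infinite legal play. -/
lemma exists_play (σ : List (Set K × Set K) → Set K) (f : ℕ → List (Set K × Set K))
    (hf : ∀ n, Legal σ (f n)) (hle : ∀ n, f n <:+ f (n + 1)) :
    ∃ c, LegalCuts σ c ∧ ∀ k, moves c (f k).length = f k := by
  classical
  have hmono : ∀ m n, m ≤ n → f m <:+ f n := by
    intro m n h
    induction h with
    | refl => exact List.suffix_refl _
    | step _ ih => exact ih.trans (hle _)
  let nxt : List (Set K × Set K) → List (Set K × Set K) := fun g =>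
    if h : ∃ m, ∃ k, (m :: g) <:+ f k then h.choose :: g else (curSet σ g, ∅) :: g
  let g : ℕ → List (Set K × Set K) := fun n => Nat.rec [] (fun _ l => nxt l) n
  have hg : ∀ n, g (n + 1) = nxt (g n) := fun n => rfl
  have hnxt : ∀ l, ∃ m, nxt l = m :: l := by
    intro l
    by_cases h : ∃ m, ∃ k, (m :: l) <:+ f k
    · exact ⟨h.choose, dif_pos h⟩
    · exact ⟨_, dif_neg h⟩
  have inv : ∀ n, Legal σ (g n) ∧ ∀ k, g n <:+ f k ∨ f k <:+ g n := by
    intro n
    induction n with
    | zero => exact ⟨trivial, fun k => Or.inl List.nil_suffix⟩
    | succ n ih =>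
      rw [hg]
      obtain ⟨ih1, ih2⟩ := ih
      by_cases h : ∃ m, ∃ k, (m :: g n) <:+ f k
      · have e : nxt (g n) = h.choose :: g n := dif_pos h
        rw [e]
        obtain ⟨k₀, hk₀⟩ := h.choose_spec
        refine ⟨(hf k₀).suffix hk₀, fun k => ?_⟩
        rcases le_total k₀ k with hk | hk
        · exact Or.inl (hk₀.trans (hmono _ _ hk))
        · exact List.suffix_or_suffix_of_suffix hk₀ (hmono _ _ hk)
      · have e : nxt (g n) = (curSet σ (g n), ∅) :: g n := dif_neg h
        rw [e]
        refine ⟨⟨ih1, by simp, by simp⟩, fun k => Or.inr ?_⟩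
        rcases ih2 k with h1 | h1
        · obtain ⟨t, ht⟩ := h1
          rcases List.eq_nil_or_concat t with rfl | ⟨t', B, rfl⟩
          · rw [← ht]; exact List.suffix_cons _ _
          · exfalso
            apply h
            refine ⟨B, k, t', ?_⟩
            rw [← ht]; simp
        · exact h1.trans (List.suffix_cons _ _)
  choose hd hhd using hnxt
  let c : ℕ → Set K × Set K := fun n => hd (g n)
  have hc : ∀ n, moves c n = g n := by
    intro n
    induction n with
    | zero => rfl
    | succ n ih =>
      show c n :: moves c n = nxt (g n)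
      rw [ih, hhd]
  have hlen : ∀ n, (g n).length = n := by
    intro n
    rw [← hc]
    induction n with
    | zero => rfl
    | succ n ih => simp [moves, ih]
  refine ⟨c, fun n => ?_, fun k => ?_⟩
  · have h1 := (inv (n + 1)).1
    rw [hg, hhd] at h1
    rw [stage_eq, hc]
    exact h1.2
  · rw [hc]
    rcases (inv (f k).length).2 k with h1 | h1
    · exact h1.eq_of_length (hlen _)
    · exact (h1.eq_of_length (hlen _).symm).symm

/-- A winning strategy gives a good system. -/
theorem exists_goodSystem (h : ChooseWins K) : ∃ S : GoodSystem K, Nonempty S.P := by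
  classical
  obtain ⟨σ, hσ⟩ := h
  -- facts about nonempty legal lists
  have hpiece : ∀ m l, Legal σ (m :: l) → (curSet σ (m :: l) = m.1 ∨ curSet σ (m :: l) = m.2) ∧
      (∀ x, curSet σ (m :: l) ≠ {x}) := by
    intro m l hl
    obtain ⟨c, hc, hc'⟩ := exists_play σ (fun _ => m :: l) (fun _ => hl)
      (fun _ => List.suffix_refl _)
    obtain ⟨h1, h2, -⟩ := hσ c hc
    have e : moves c (l.length + 1) = m :: l := by
      have := hc' 0
      simpa using this
    have e' : c l.length = m := by
      have : c l.length :: moves c l.length = m :: l := e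
      exact (List.cons.inj this).1
    constructor
    · have := h1 l.length
      rw [stage_eq, e, e'] at this
      exact this
    · intro x
      have := h2 l.length x
      rwa [stage_eq, e] at this
  have hinter : ∀ f : ℕ → List (Set K × Set K), (∀ n, Legal σ (f n)) →
      (∀ n, f n <:+ f (n + 1)) → (⋂ n, curSet σ (f n)).Nonempty := by
    intro f hf hle
    obtain ⟨c, hc, hc'⟩ := exists_play σ f hf hle
    obtain ⟨-, -, x, hx⟩ := hσ c hc
    refine ⟨x, mem_iInter.mpr fun k => ?_⟩
    have := mem_iInter.mp hx (f k).length
    rwa [stage_eq, hc'] at this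
  have hcons : ∀ (l : List (Set K × Set K)), Legal σ l → ∀ A : Set K,
      Legal σ ((curSet σ l ∩ A, curSet σ l \ A) :: l) := by
    intro l hl A
    exact ⟨hl, by simp, Set.disjoint_left.mpr fun x hx hx' => hx'.2 hx.2⟩
  have hmono1 : ∀ m l, Legal σ (m :: l) → curSet σ (m :: l) ⊆ curSet σ l := by
    intro m l hl
    obtain ⟨h1, -⟩ := hpiece m l hl
    have h2 : m.1 ∪ m.2 = curSet σ l := hl.2.1
    rw [← h2]
    rcases h1 with h1 | h1
    · rw [h1]; exact subset_union_left
    · rw [h1]; exact subset_union_right
  have hmono : ∀ l l' : List (Set K × Set K), l <:+ l' → Legal σ l' →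
      curSet σ l' ⊆ curSet σ l := by
    rintro l l' ⟨t, rfl⟩ hl
    induction t with
    | nil => exact Subset.rfl
    | cons a t ih => exact (hmono1 a (t ++ l) hl).trans (ih hl.1)
  let S : GoodSystem K :=
    { P := {l : List (Set K × Set K) // Legal σ l}
      le := fun p q => p.1 <:+ q.1
      le_refl := fun p => List.suffix_refl _
      le_trans := fun _ _ _ h h' => h.trans h'
      cur := fun p => curSet σ p.1
      mono := fun p q h => hmono _ _ h q.2
      decide := by
        rintro ⟨l, hl⟩ A
        refine ⟨⟨(curSet σ l ∩ A, curSet σ l \ A) :: l, hcons l hl A⟩, List.suffix_cons _ _, ?_⟩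
        obtain ⟨h1, -⟩ := hpiece _ _ (hcons l hl A)
        rcases h1 with h1 | h1
        · left
          show curSet σ _ ⊆ A
          rw [h1]; exact inter_subset_right
        · right
          show Disjoint (curSet σ _) A
          rw [h1]
          exact Set.disjoint_left.mpr fun x hx hx' => hx.2 hx'
      inter := fun f hf => hinter (fun n => (f n).1) (fun n => (f n).2) hf
      nosingle := by
        rintro ⟨l, hl⟩ x
        cases l with
        | cons m l => exact (hpiece m l hl).2 x
        | nil =>
          intro heq
          have hl' := hcons [] hl Set.univ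
          obtain ⟨y, hy⟩ := hinter (fun _ => _) (fun _ => hl') (fun _ => List.suffix_refl _)
          have hy' := mem_iInter.mp hy 0
          apply (hpiece _ _ hl').2 x
          have heq' : curSet σ [] = {x} := heq
          have hsub : curSet σ [(curSet σ [] ∩ Set.univ, curSet σ [] \ Set.univ)] ⊆ {x} :=
            fun z hz => heq' ▸ hmono1 _ _ hl' hz
          apply Subset.antisymm hsub
          intro z hz
          have h1 : y = x := hsub hy'
          rw [mem_singleton_iff.mp hz, ← h1]
          exact hy' }
  exact ⟨S, ⟨⟨[], trivial⟩⟩⟩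

end Pool.Agent.CutChoose
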