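import Mathlib
import Pool.Agent.CutChoose.Game

/-!
# Main theorem
-/

open Cardinal Set Function
open scoped Ordinal

namespace Pool.Agent.CutChoose

theorem SP.forcedWellFounded {K : Type} {I : Set (Set K)} (h : SP I) : ForcedWellFounded I := by
  rintro ⟨A, W, f, hA, hW, hf⟩
  obtain ⟨x, X, hX⟩ := h A hA W hW (fun n X Y => {x ∈ X ∩ Y | f (n + 1) Y x ∉ f n X x}) hf
  have hmem : ∀ n, f (n + 1) (X (n + 1)) x ∈ f n (X n) x := by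
    intro n
    by_contra hne
    exact (hX n).2.2.1 ⟨⟨(hX n).2.1, (hX (n + 1)).2.1⟩, hne⟩
  have hwf : WellFounded (fun a b : ZFSet.{0} => a ∈ b) := ZFSet.mem_wf
  obtain ⟨m, ⟨n, rfl⟩, hm⟩ := hwf.has_min (range fun n => f n (X n) x) ⟨_, 0, rfl⟩
  exact hm _ ⟨n + 1, rfl⟩ (hmem n)

theorem SP.jechPrikry {K : Type} {I : Set (Set K)} (h : SP I)
    (hdown : ∀ A B : Set K, A ⊆ B → B ∈ I → A ∈ I) (hempty : ∅ ∈ I) : JechPrikry I := by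
  intro A hA W hW href
  obtain ⟨x, X, hX⟩ := h A hA W hW (fun _ _ _ => ∅) (fun _ _ _ _ _ => hempty)
  refine ⟨X, fun n => (hX n).1, fun n => ?_, ⟨x, mem_iInter.mpr fun n => (hX n).2.1⟩⟩
  obtain ⟨Z, hZ, hYZ⟩ := href n (X (n + 1)) (hX (n + 1)).1
  by_cases hne : X n = Z
  · rw [hne]; exact hYZ
  · exfalso
    apply (hX n).2.2.2
    refine hdown _ (X n ∩ Z) ?_ ((hW n).disj _ (hX n).1 _ hZ hne)
    exact fun z hz => ⟨hz.1, hYZ hz.2⟩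

lemma aleph_one_le_continuum' : (ℵ_ 1 : Cardinal.{0}) ≤ 𝔠 := Cardinal.aleph_one_le_continuum

lemma mk_om2 : #(ω_ 2).ToType = (ℵ_ 2 : Cardinal.{0}) := by
  simp

lemma lt_aleph_two {c : Cardinal.{0}} (h : c < ℵ_ 2) : c ≤ ℵ_ 1 := by
  have h4 : (ℵ_ 2 : Cardinal.{0}) = Order.succ (ℵ_ 1) := by
    rw [Cardinal.succ_aleph]; congr 1
    norm_num
  rw [h4] at h
  exact Order.lt_succ_iff.mp h

lemma aleph_three_le {c : Cardinal.{0}} (h : ℵ_ 2 < c) : ℵ_ 3 ≤ c := by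
  have h4 : (ℵ_ 3 : Cardinal.{0}) = Order.succ (ℵ_ 2) := by
    rw [Cardinal.succ_aleph]; congr 1
  rw [h4]
  exact Order.succ_le_of_lt h

lemma mk_Iio_om2 (a : (ω_ 2).ToType) : #(Iio a) ≤ (ℵ_ 1 : Cardinal.{0}) := by
  apply lt_aleph_two
  have h := Cardinal.mk_Iio_lt a (by rw [mk_om2]; simp)
  rwa [mk_om2] at h

lemma mk_Iic_om2 (a : (ω_ 2).ToType) : #(Iic a) ≤ (ℵ_ 1 : Cardinal.{0}) := by
  have h : Iic a = insert a (Iio a) := by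
    ext x; simp [le_iff_lt_or_eq, or_comm]
  rw [h]
  refine (Cardinal.mk_insert_le).trans ?_
  exact (add_le_add (mk_Iio_om2 a) (Cardinal.one_le_aleph0.trans
    (Cardinal.aleph0_le_aleph 1))).trans (Cardinal.add_eq_self (Cardinal.aleph0_le_aleph 1)).le

/-- The ideal properties. -/
theorem ideal_props (S : GoodSystem (ω_ 2).ToType) (p : S.P) :
    (∀ A B, A ⊆ B → B ∈ S.ideal p → A ∈ S.ideal p) ∧
    (∀ 𝒜 : Set (Set (ω_ 2).ToType), #𝒜 < ℵ_ 2 → 𝒜 ⊆ S.ideal p → ⋃₀ 𝒜 ∈ S.ideal p) ∧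
    (∀ A, BddAbove A → A ∈ S.ideal p) ∧ Set.univ ∉ S.ideal p := by
  refine ⟨fun A B hAB hB => GoodSystem.Hopeless.mono_set S hB hAB, fun 𝒜 h𝒜 hsub => ?_,
    fun A hA => ?_, fun h => ?_⟩
  · rw [sUnion_eq_iUnion]
    exact S.hopeless_iUnion p ((lt_aleph_two h𝒜).trans aleph_one_le_continuum') _
      (fun X => hsub X.2)
  · obtain ⟨a, ha⟩ := hA
    exact (S.hopeless_small p ((mk_Iic_om2 a).trans aleph_one_le_continuum')).mono_set S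
      (fun x hx => ha hx)
  · exact h p (S.le_refl p) (subset_univ _)

/-- `I` has all its antichains of size less than `2 ^ ℵ₁`, but one of size `ℵ₃`. -/
def Borderline {K : Type} (I : Set (Set K)) : Prop :=
  (∀ W : Set (Set K), (∀ X ∈ W, X ∉ I) → (∀ X ∈ W, ∀ Y ∈ W, X ≠ Y → X ∩ Y ∈ I) →
    #W < 2 ^ (ℵ_ 1 : Cardinal.{0})) ∧
  ∃ W : Set (Set K), (∀ X ∈ W, X ∉ I) ∧ (∀ X ∈ W, ∀ Y ∈ W, X ≠ Y → X ∩ Y ∈ I) ∧ #W = ℵ_ 3

theorem main (hC : ChooseWins (ω_ 2).ToType) :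
    ∃ (S : GoodSystem (ω_ 2).ToType) (p : S.P), SP (S.ideal p) ∨ Borderline (S.ideal p) := by
  classical
  obtain ⟨S, ⟨p₀⟩⟩ := exists_goodSystem hC
  by_cases hcase : ∃ p : S.P, ∀ W : Set (Set (ω_ 2).ToType), (∀ X ∈ W, ¬ S.Hopeless p X) →
      (∀ X ∈ W, ∀ Y ∈ W, X ≠ Y → S.Hopeless p (X ∩ Y)) → #W ≤ ℵ_ 2
  · obtain ⟨p, hp⟩ := hcase
    refine ⟨S, p, Or.inl (SP_of_saturated _ ⟨fun A B hAB hB =>
      GoodSystem.Hopeless.mono_set S hB hAB,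
      fun ι hι A hA => S.hopeless_iUnion p (hι.trans aleph_one_le_continuum') A hA⟩ ?_)⟩
    exact fun W h1 h2 => hp W h1 h2
  push Not at hcase
  by_cases hcase2 : ∃ p : S.P, ∀ W : Set (Set (ω_ 2).ToType), (∀ X ∈ W, ¬ S.Hopeless p X) →
      (∀ X ∈ W, ∀ Y ∈ W, X ≠ Y → S.Hopeless p (X ∩ Y)) → #W < 2 ^ (ℵ_ 1 : Cardinal.{0})
  · obtain ⟨p, hp⟩ := hcase2
    refine ⟨S, p, Or.inr ⟨fun W h1 h2 => hp W h1 h2, ?_⟩⟩
    obtain ⟨W, hW1, hW2, hW3⟩ := hcase p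
    obtain ⟨V, hV, hV3⟩ := (Cardinal.le_mk_iff_exists_subset (s := W)).mp (aleph_three_le hW3)
    exact ⟨V, fun X hX => hW1 X (hV hX), fun X hX Y hY hne => hW2 X (hV hX) Y (hV hY) hne, hV3⟩
  · push Not at hcase2
    have e : (ω_ 2).ToType × (ω_ 2).ToType ≃ (ω_ 2).ToType := by
      apply Classical.choice
      rw [← Cardinal.eq, Cardinal.mk_prod, Cardinal.lift_id, mk_om2]
      exact Cardinal.mul_eq_self (Cardinal.aleph0_le_aleph 2)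
    have hLS := S.prod_largeSplitting (fun a => (mk_Iic_om2 a).trans aleph_one_le_continuum') (by
      intro p a
      obtain ⟨W, hW1, hW2, hW3⟩ := hcase2 p
      refine ⟨W, hW1, hW2, ?_⟩
      rw [Cardinal.mk_set]
      exact (Cardinal.power_le_power_left (by norm_num) (mk_Iio_om2 a)).trans hW3) e
    obtain ⟨T, r, hT, -⟩ := GoodSystem.exists_homogeneous _ ((p₀, fun _ => p₀) :
      (S.prod.map e).P) (hLS.map e)
    exact ⟨T, r, Or.inl (T.SP_of_homogeneous r hT)⟩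

end Pool.Agent.CutChoose
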