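import Mathlib
import Pool.Agent.CutChoose.Main

/-!
# The sharper dichotomy: almost disjoint families of functions
-/

open Cardinal Set Function
open scoped Ordinal

namespace Pool.Agent.CutChoose

namespace GoodSystem

/-- The part of a good system above a position. -/
def cone {K : Type} (S : GoodSystem K) (t : S.P) : GoodSystem K where
  P := {q // S.le t q}
  le p q := S.le p.1 q.1
  le_refl p := S.le_refl _
  le_trans p q r h h' := S.le_trans _ _ _ h h'
  cur p := S.cur p.1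
  mono p q h := S.mono _ _ h
  decide p A := by
    obtain ⟨q, hq, h⟩ := S.decide p.1 A
    exact ⟨⟨q, S.le_trans _ _ _ p.2 hq⟩, hq, h⟩
  inter f hf := S.inter (fun n => (f n).1) hf
  nosingle p x := S.nosingle _ x

lemma cone_hopeless {K : Type} (S : GoodSystem K) (t : S.P) {A : Set K} (h : S.Hopeless t A)
    (q : (S.cone t).P) : (S.cone t).Hopeless q A := fun r _ hA =>
  h r.1 r.2 hA

/-- If all ideals of a good system have antichains indexed by `Λ`, and there is an almost disjoint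
family of functions into `Λ` indexed by all subsets, then the product has large splitting. -/
theorem prod_largeSplitting_of_family {K Λ : Type} (S : GoodSystem K)
    (hanti : ∀ p : S.P, ∃ X : Λ → Set K, (∀ i, ¬ S.Hopeless p (X i)) ∧
      ∀ i j, i ≠ j → S.Hopeless p (X i ∩ X j))
    (F : Set K → K → Λ) (hF : ∀ A B, A ≠ B → ∀ t, S.Hopeless t {x | F A x = F B x})
    (e : K × K ≃ K) : S.prod.LargeSplitting := by
  classical
  rintro ⟨t, h⟩
  have hcode : ∀ a : K, ∃ g : Λ → S.P, (∀ i, S.le (h a) (g i)) ∧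
      ∀ i j, i ≠ j → ∀ u, S.le (h a) u → ¬ S.cur u ⊆ S.cur (g i) ∩ S.cur (g j) := by
    intro a
    obtain ⟨X, hX1, hX2⟩ := hanti (h a)
    have h1 : ∀ i, ∃ q, S.le (h a) q ∧ S.cur q ⊆ X i := by
      intro i
      have := hX1 i
      unfold Hopeless at this
      push Not at this
      exact this
    choose q hq hq' using h1
    refine ⟨q, hq, fun i j hij u hu hsub => hX2 i j hij u hu ?_⟩
    intro x hx
    exact ⟨hq' _ (hsub hx).1, hq' _ (hsub hx).2⟩
  choose g hg hginc using hcode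
  let G : Set (K × K) → S.prod.P := fun A => (t, fun a => g a (F (e '' A) a))
  have hGle : ∀ A, S.prod.le (t, h) (G A) := fun A => ⟨S.le_refl _, fun a _ => hg a _⟩
  have key : ∀ A B : Set (K × K), A ≠ B → ∀ u, S.prod.le (t, h) u →
      ¬ S.prod.cur u ⊆ S.prod.cur (G A) ∩ S.prod.cur (G B) := by
    intro A B hAB u hu hsub
    have hne : e '' A ≠ e '' B := fun heq => hAB (e.injective.image_injective heq)
    obtain ⟨a, ha, haF⟩ : ∃ a ∈ S.cur u.1, F (e '' A) a ≠ F (e '' B) a := by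
      by_contra hcon
      push Not at hcon
      exact hF _ _ hne u.1 u.1 (S.le_refl _) (fun z hz => hcon z hz)
    apply hginc a _ _ haF (u.2 a) (hu.2 a ha)
    intro b hb
    have h3 : (a, b) ∈ S.prod.cur (G A) ∩ S.prod.cur (G B) := hsub ⟨ha, hb⟩
    exact ⟨h3.1.2, h3.2.2⟩
  refine ⟨G, hGle, fun A B hAB => ⟨fun u hu => key A B hAB u (S.prod.le_trans _ _ _ (hGle A) hu),
    fun u hu => key A B hAB u (S.prod.le_trans _ _ _ (hGle B) hu)⟩⟩

end GoodSystem

/-- `I` has an antichain of size `c`. -/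
def HasAntichain {K : Type} (I : Set (Set K)) (c : Cardinal.{0}) : Prop :=
  ∃ W, IsIAntichain I W ∧ #W = c

lemma HasAntichain.mono {K : Type} {I : Set (Set K)} {W : Set (Set K)} (hW : IsIAntichain I W)
    {c : Cardinal.{0}} (h : c ≤ #W) : HasAntichain I c := by
  obtain ⟨V, hV, hVc⟩ := (Cardinal.le_mk_iff_exists_subset (s := W)).mp h
  exact ⟨V, ⟨fun X hX => hW.1 X (hV hX), fun X hX Y hY hne => hW.2 X (hV hX) Y (hV hY) hne⟩, hVc⟩

theorem main2 (hC : ChooseWins OmegaTwo) :
    ∃ (S : GoodSystem OmegaTwo) (p : S.P), SP (S.ideal p) ∨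
      (HasAntichain (S.ideal p) (ℵ_ 3) ∧ ∀ W : Set (Set OmegaTwo),
        IsIAntichain (S.ideal p) W → ∀ F : Set OmegaTwo → OmegaTwo → W,
          ∃ A B, A ≠ B ∧ {x | F A x = F B x} ∉ S.ideal p) := by
  classical
  obtain ⟨S₀, ⟨p₀⟩⟩ := exists_goodSystem hC
  let C : Set Cardinal.{0} := {c | ∃ (S : GoodSystem OmegaTwo) (p : S.P),
    ¬ HasAntichain (S.ideal p) c}
  have hCne : C.Nonempty := by
    refine ⟨Order.succ #(Set (Set OmegaTwo)), S₀, p₀, ?_⟩
    rintro ⟨W, -, hW⟩
    have h1 : #W ≤ #(Set (Set OmegaTwo)) := by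
      exact (Cardinal.mk_set_le W).trans (Cardinal.mk_le_of_injective
        (f := fun X : Set OmegaTwo => ({X} : Set (Set OmegaTwo)))
        (fun X Y h => by simpa using h))
    rw [hW] at h1
    exact absurd (Order.succ_le_iff.mp h1) (lt_irrefl _)
  obtain ⟨S, p, hSp⟩ : sInf C ∈ C := csInf_mem hCne
  have hmin : ∀ c < sInf C, ∀ (T : GoodSystem OmegaTwo) (q : T.P),
      HasAntichain (T.ideal q) c := by
    intro c hc T q
    by_contra h
    exact absurd (csInf_le' (show c ∈ C from ⟨T, q, h⟩)) (not_le.mpr hc)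
  have hlt : ∀ W, IsIAntichain (S.ideal p) W → #W < sInf C := by
    intro W hW
    by_contra h
    exact hSp (HasAntichain.mono hW (not_lt.mp h))
  by_cases h3 : sInf C ≤ ℵ_ 3
  · refine ⟨S, p, Or.inl (SP_of_saturated _ ⟨fun A B hAB hB =>
      GoodSystem.Hopeless.mono_set S hB hAB,
      fun ι hι A hA => S.hopeless_iUnion p (hι.trans aleph_one_le_continuum') A hA⟩ ?_)⟩
    intro W h1 h2
    by_contra hcon
    exact absurd ((aleph_three_le (not_le.mp hcon)).trans_lt (hlt W ⟨h1, h2⟩)) (not_lt.mpr h3)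
  · by_cases hfam : ∃ W : Set (Set OmegaTwo), IsIAntichain (S.ideal p) W ∧
        ∃ F : Set OmegaTwo → OmegaTwo → W,
          ∀ A B, A ≠ B → {x | F A x = F B x} ∈ S.ideal p
    · obtain ⟨W, hW, F, hF⟩ := hfam
      have e : OmegaTwo × OmegaTwo ≃ OmegaTwo := by
        apply Classical.choice
        rw [← Cardinal.eq, Cardinal.mk_prod, Cardinal.lift_id, mk_om2]
        exact Cardinal.mul_eq_self (Cardinal.aleph0_le_aleph 2)
      have hLS := (S.cone p).prod_largeSplitting_of_family (Λ := W) (by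
        intro q
        obtain ⟨V, hV, hVc⟩ := hmin _ (hlt W hW) (S.cone p) q
        obtain ⟨φ⟩ := Cardinal.eq.mp hVc.symm
        refine ⟨fun i => (φ i).1, fun i => hV.1 _ (φ i).2, fun i j hij => ?_⟩
        exact hV.2 _ (φ i).2 _ (φ j).2 (fun h => hij (φ.injective (Subtype.ext h)))) F
        (fun A B hAB t => S.cone_hopeless p (hF A B hAB) t) e
      obtain ⟨T, r, hT, -⟩ := GoodSystem.exists_homogeneous _
        (((⟨p, S.le_refl p⟩ : (S.cone p).P), fun _ => ⟨p, S.le_refl p⟩) :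
          ((S.cone p).prod.map e).P) (hLS.map e)
      exact ⟨T, r, Or.inl (T.SP_of_homogeneous r hT)⟩
    · push Not at hfam
      exact ⟨S, p, Or.inr ⟨hmin _ (not_le.mp h3) S p, hfam⟩⟩

/-- The last property implies that all antichains are smaller than `2 ^ ℵ₁`. -/
theorem antichain_lt {I : Set (Set OmegaTwo)} (hI : ∀ A, BddAbove A → A ∈ I)
    (h : ∀ W : Set (Set OmegaTwo), IsIAntichain I W →
      ∀ F : Set OmegaTwo → OmegaTwo → W, ∃ A B, A ≠ B ∧ {x | F A x = F B x} ∉ I)
    (W : Set (Set OmegaTwo)) (hW : IsIAntichain I W) :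
    #W < 2 ^ (ℵ_ 1 : Cardinal.{0}) := by
  classical
  by_contra hcon
  have hle : ∀ a : OmegaTwo, #(Set (Iio a)) ≤ #W := by
    intro a
    rw [Cardinal.mk_set]
    exact (Cardinal.power_le_power_left (by norm_num) (mk_Iio_om2 a)).trans (not_lt.mp hcon)
  have hφ : ∀ a : OmegaTwo, ∃ φ : Set (Iio a) → W, Injective φ := by
    intro a
    obtain ⟨φ⟩ : Nonempty (Set (Iio a) ↪ W) := by
      rw [← Cardinal.le_def]; exact hle a
    exact ⟨φ, φ.injective⟩
  choose φ hφ using hφ
  obtain ⟨A, B, hAB, hpos⟩ := h W hW (fun A a => φ a (Subtype.val ⁻¹' A))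
  apply hpos
  apply hI
  obtain ⟨ξ, hξ⟩ : ∃ ξ, ¬ (ξ ∈ A ↔ ξ ∈ B) := by
    by_contra hcon
    push Not at hcon
    exact hAB (Set.ext hcon)
  refine ⟨ξ, ?_⟩
  intro x hx
  by_contra hlt
  have hx' : (Subtype.val ⁻¹' A : Set (Iio x)) = Subtype.val ⁻¹' B := hφ x hx
  apply hξ
  have h1 := Set.ext_iff.mp hx' ⟨ξ, not_le.mp hlt⟩
  exact h1

end Pool.Agent.CutChoose
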